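import Mathlib
import Pool.Agent.H34.Rev

namespace Pool.Agent.Results.MP_75988d_co.Disconn
open Pool.Agent.H34.RevDefs

/-- For `π = (-1, -3, -5, -6, -4, -7, -2)` the space of optimal scenarios is not connected. -/
theorem result : ∃ (n : ℕ) (π : List ℤ), 1 ≤ n ∧ IsSigned n π ∧ ¬ (scenGraph n π).Preconnected :=
  ⟨7, H34.Rev.p0, by decide, by unfold IsSigned; decide, H34.Rev.main⟩

end Pool.Agent.Results.MP_75988d_co.Disconn
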